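import Pool.Agent.H61.AbContC
import Pool.Graph.R_pool_sql_team_39128cda.Results.MP_ab521b_an.Dim

set_option autoImplicit false
open Set MeasureTheory Metric ComplexConjugate
open scoped NNReal ENNReal

namespace Pool.Agent.Results.MP_ab521b_an.AbsolutelyContinuousLaws

/-- unit sphere of `ℂⁿ` -/
abbrev Sph (n : ℕ) := sphere (0 : EuclideanSpace ℂ (Fin n)) 1

/-- normalized surface measure -/
noncomputable def sigma (n : ℕ) : Measure (Sph n) :=
  ((volume : Measure (EuclideanSpace ℂ (Fin n))).toSphere univ)⁻¹ •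
    (volume : Measure (EuclideanSpace ℂ (Fin n))).toSphere

/-- the span `E` of the functions `conj u_k * u ^ α`, `u_k * conj u ^ α`, `α ≠ 0` -/
noncomputable def E (n : ℕ) : Submodule ℂ C(Sph n, ℂ) :=
  Submodule.span ℂ {p | ∃ (k : Fin n) (α : Fin n → ℕ), α ≠ 0 ∧
    ((∀ u, p u = conj (u.1 k) * ∏ j, u.1 j ^ α j) ∨ ∀ u, p u = u.1 k * ∏ j, conj (u.1 j) ^ α j)}

/-- probability measures in the weak-* closure of `{p dσ : p ∈ E}` -/
def PE (n : ℕ) : Set (Measure (Sph n)) :=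
  {μ | IsProbabilityMeasure μ ∧ ∀ (s : Finset C(Sph n, ℂ)) (ε : ℝ), 0 < ε →
    ∃ p ∈ E n, ∀ g ∈ s, ‖∫ u, g u ∂μ - ∫ u, g u * p u ∂sigma n‖ < ε}

/-- every coordinate `u ↦ ⟨u,a⟩`, `a ≠ 0`, has an absolutely continuous law under `μ` -/
def LawsAC (n : ℕ) (μ : Measure (Sph n)) : Prop :=
  ∀ a : EuclideanSpace ℂ (Fin n), a ≠ 0 → ∀ N : Set ℂ, volume N = 0 → μ {u | inner ℂ a u.1 ∈ N} = 0

/-- these laws are locally bounded by multiples of the laws under surface measure -/
def LawsDominated (n : ℕ) (μ : Measure (Sph n)) : Prop :=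
  ∀ a : EuclideanSpace ℂ (Fin n), ∀ s : ℝ, s < ‖a‖ → ∃ K : ℝ≥0, ∀ B : Set ℂ, MeasurableSet B →
    B ⊆ closedBall 0 s → μ {u | inner ℂ a u.1 ∈ B} ≤ K * sigma n {u | inner ℂ a u.1 ∈ B}

/-- dimensions of complex subspaces null for all measures in `P` -/
def nullDimC (n : ℕ) (P : Set (Measure (Sph n))) : Set ℕ :=
  {d | ∃ L : Submodule ℂ (EuclideanSpace ℂ (Fin n)), Module.finrank ℂ L = d ∧ ∀ μ ∈ P, μ {u | u.1 ∈ L} = 0}

/-- dimensions of real subspaces null for all measures in `P` -/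
def nullDimR (n : ℕ) (P : Set (Measure (Sph n))) : Set ℕ :=
  {d | ∃ L : Submodule ℝ (EuclideanSpace ℂ (Fin n)), Module.finrank ℝ L = d ∧ ∀ μ ∈ P, μ {u | u.1 ∈ L} = 0}

section proof
open H.MP_ab521b_an Pool.Agent.H61.AbCont

variable {n : ℕ}

theorem annih {μ : Measure (Sph n)} (hμ : μ ∈ PE n) (g : C(Sph n, ℂ)) (hg : ∀ (k : Fin n) (α : Fin n → ℕ),
      ∫ u, g u * (conj (u.1 k) * ∏ j, u.1 j ^ α j) ∂sg n = 0 ∧
      ∫ u, g u * (u.1 k * ∏ j, conj (u.1 j) ^ α j) ∂sg n = 0) : ∫ u, g u ∂μ = 0 := by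
  obtain ⟨h1, h2⟩ := hμ
  have : ∀ p ∈ E n, ∫ u, g u * p u ∂sg n = 0 := fun p hp => by
    induction hp using Submodule.span_induction with
    | mem p hp =>
      obtain ⟨k, α, -, h | h⟩ := hp <;> simp only [h]
      exacts [(hg k α).1, (hg k α).2]
    | zero => simp
    | add p q _ _ hp hq =>
      simp only [ContinuousMap.add_apply, mul_add]
      rw [integral_add (ci _ (by fun_prop)) (ci _ (by fun_prop)), hp, hq, add_zero]
    | smul a p _ hp =>
      simp only [ContinuousMap.smul_apply, smul_eq_mul, mul_left_comm _ a]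
      rw [integral_const_mul, hp, mul_zero]
  refine norm_le_zero_iff.1 (le_of_forall_pos_le_add fun ε hε => ?_)
  obtain ⟨p, p1, p2⟩ := h2 {g} ε hε
  simpa [sigma, integral_smul_measure, this p p1] using (p2 g (by simp)).le

theorem hyp {μ : Measure (Sph n)} [IsProbabilityMeasure μ] (hμ : μ ∈ PE n) (o o' : Fin n)
    (oo : o ≠ o') (b : OrthonormalBasis (Fin n) ℂ (V n)) : Hyp μ (fun u => b.repr u.1 o) o := by
  classical
  intro s s0 s1
  refine est (σ := sg n) (μ := μ) (t := fun u => ‖u.1 o‖ ^ 2) (z := fun u => b.repr u.1 o) (by fun_prop)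
    (by fun_prop) (fun _ => sq_nonneg _) (fun u => pow_le_one₀ (norm_nonneg _) (n1 u o))
    (fun u => (PiLp.norm_apply_le _ o).trans_eq (by simp)) (fun x hx => ?_) (fun k φ hφ h0 h1 => ?_) s0 s1
  · refine ⟨⟨EuclideanSpace.single o (√x : ℂ) + EuclideanSpace.single o' (√(1 - x) : ℂ), ?_⟩, ?_⟩
    · rw [mem_sphere_zero_iff_norm, ← sq_eq_sq₀ (norm_nonneg _) one_pos.le, sq,
        norm_add_sq_eq_norm_sq_add_norm_sq_of_inner_eq_zero (𝕜 := ℂ)]
      · simp [hx.1, hx.2]
      · simp [EuclideanSpace.inner_single_left, oo]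
    · simp [oo, hx.1]
  refine annih hμ ⟨fun u => b.repr u.1 o ^ k * φ (‖b.repr u.1 o‖ ^ 2), by fun_prop⟩ fun m α => ?_
  let W : V n ≃ₗᵢ[ℝ] V n := ⟨b.repr.symm.toLinearEquiv.restrictScalars ℝ, b.repr.symm.norm_map⟩
  have w : ∀ y, W y = b.repr.symm y := fun _ => rfl
  have w' : ∀ (y : V n) j, b.repr.symm y j = ∑ i, y i * b i j := fun y j => by
    rw [← b.sum_repr_symm]; simp
  let H : MvPolynomial (Fin n) ℂ := ∏ j, (∑ i, .X i * .C (b i j)) ^ α j
  have cH : Continuous fun u : Sp n => H.eval u.1 := H.continuous_eval.comp (by fun_prop)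
  have hH : ∀ y : V n, ∏ j, b.repr.symm y j ^ α j = H.eval y := fun y => by simp [H, w']
  have hH' : ∀ y : V n, ∏ j, conj (b.repr.symm y j) ^ α j = conj (H.eval y) := fun y => by
    rw [← hH]; simp
  constructor
  · refine (inv W fun y => b.repr y o ^ k * φ (‖b.repr y o‖ ^ 2) * (conj (y m) * ∏ j, y j ^ α j)).symm.trans ?_
    simp only [w, hH, LinearIsometryEquiv.apply_symm_apply]
    simp only [w', map_sum, Finset.sum_mul, Finset.mul_sum]
    rw [integral_finsetSum _ fun j _ => ci _ (by fun_prop)]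
    refine Finset.sum_eq_zero fun i _ => ?_
    rw [← mul_zero (conj (b i m)), ← (orth o i k φ hφ h0 h1 H).1, ← integral_const_mul]
    congr 1; ext; rw [map_mul]; ring
  · refine (inv W fun y => b.repr y o ^ k * φ (‖b.repr y o‖ ^ 2) * (y m * ∏ j, conj (y j) ^ α j)).symm.trans ?_
    simp only [w, hH', LinearIsometryEquiv.apply_symm_apply]
    simp only [w', Finset.sum_mul, Finset.mul_sum]
    rw [integral_finsetSum _ fun j _ => ci _ (by fun_prop)]
    refine Finset.sum_eq_zero fun i _ => ?_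
    rw [← mul_zero (b i m), ← (orth o i k φ hφ h0 h1 H).2, ← integral_const_mul]
    congr 1; ext; ring

/-- invariance of surface measure, for sets -/
theorem invs (b : OrthonormalBasis (Fin n) ℂ (V n)) (o : Fin n) {B : Set ℂ} (hB : MeasurableSet B) :
    sg n {u | u.1 o ∈ B} = sg n {u | b.repr u.1 o ∈ B} := by
  let W : V n ≃ₗᵢ[ℝ] V n := ⟨b.repr.toLinearEquiv.restrictScalars ℝ, b.repr.norm_map⟩
  have h := inv W fun y => ((B.indicator (1 : ℂ → ℝ) (y o) : ℝ) : ℂ)
  have m1 : MeasurableSet {u : Sp n | u.1 o ∈ B} := (by fun_prop : Measurable fun u : Sp n => u.1 o) hB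
  have m2 : MeasurableSet {u : Sp n | b.repr u.1 o ∈ B} :=
    (by fun_prop : Measurable fun u : Sp n => b.repr u.1 o) hB
  rw [integral_complex_ofReal, integral_complex_ofReal, Complex.ofReal_inj] at h
  have e1 : (fun u : Sp n => B.indicator (1 : ℂ → ℝ) (u.1 o)) = {u : Sp n | u.1 o ∈ B}.indicator 1 := rfl
  have e2 : (fun u : Sp n => B.indicator (1 : ℂ → ℝ) (W u.1 o)) = {u : Sp n | b.repr u.1 o ∈ B}.indicator 1 := rfl
  rw [e1, e2, integral_indicator_one m1, integral_indicator_one m2] at h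
  rw [← ofReal_measureReal, ← h, ofReal_measureReal]

theorem main (hn : 2 ≤ n) {μ : Measure (Sph n)} (hμ : μ ∈ PE n) (a : EuclideanSpace ℂ (Fin n)) (ha : a ≠ 0) :
    (∀ N : Set ℂ, volume N = 0 → μ {u | inner ℂ a u.1 ∈ N} = 0) ∧
    ∀ s : ℝ, s < ‖a‖ → ∃ K : ℝ≥0, ∀ B : Set ℂ, MeasurableSet B → B ⊆ closedBall 0 s →
      μ {u | inner ℂ a u.1 ∈ B} ≤ K * sigma n {u | inner ℂ a u.1 ∈ B} := by
  have := hμ.1
  let o : Fin n := ⟨0, by omega⟩
  let o' : Fin n := ⟨1, by omega⟩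
  have oo : o ≠ o' := by simp [o, o']
  have a0 : 0 < ‖a‖ := norm_pos_iff.2 ha
  obtain ⟨b, hb⟩ := Orthonormal.exists_orthonormalBasis_extension_of_card_eq (𝕜 := ℂ) (E := V n)
    (ι := Fin n) (by simp) (v := fun _ => (‖a‖⁻¹ : ℂ) • a) (s := {o})
    ⟨fun _ => norm_smul_inv_norm (𝕜 := ℂ) ha, Subsingleton.pairwise⟩
  have za : ∀ u : Sp n, inner ℂ a u.1 = ‖a‖ * b.repr u.1 o := fun u => by
    rw [b.repr_apply_apply, hb o rfl, inner_smul_left]
    simp [a0.ne']
  have zc : Continuous fun u : Sp n => b.repr u.1 o := by fun_prop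
  have z1 : ∀ u : Sp n, ‖b.repr u.1 o‖ ≤ 1 := fun u => (PiLp.norm_apply_le _ o).trans_eq (by simp)
  have Hy := hyp hμ o o' oo b
  have sc : ∀ B : Set ℂ, {u : Sp n | inner ℂ a u.1 ∈ B} = {u : Sp n | b.repr u.1 o ∈ (fun w : ℂ => ‖a‖ * w) ⁻¹' B} :=
    fun B => by ext u; simp only [mem_ofPred_eq, mem_preimage, za]
  constructor
  · intro N hN
    wlog hm : MeasurableSet N generalizing N
    · exact measure_mono_null (fun u hu => subset_toMeasurable volume N hu)
        (this (toMeasurable volume N) (by rwa [measure_toMeasurable]) (measurableSet_toMeasurable _ _))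
    have hN' : volume ((fun w : ℂ => ‖a‖ * w) ⁻¹' N) = 0 := by
      have := Measure.addHaar_preimage_smul (volume : Measure ℂ) a0.ne' N
      rw [hN, mul_zero] at this
      simpa using this
    have hm' : MeasurableSet ((fun w : ℂ => ‖a‖ * w) ⁻¹' N) := (by fun_prop : Measurable fun w : ℂ => ‖a‖ * w) hm
    rw [sc]
    generalize (fun w : ℂ => ‖a‖ * w) ⁻¹' N = M at hN' hm'
    have S0 := sig_ac o o' oo hN'
    have A1 : μ {u : Sp n | ‖b.repr u.1 o‖ = 1} = 0 := by
      refine measure_mono_null (fun u hu => ?_) (Pool.Agent.H.MP_ab521b_an.main hn μ (annih hμ)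
        ((LinearMap.ker ((EuclideanSpace.proj o' : V n →L[ℂ] ℂ).toLinearMap ∘ₗ
          b.repr.toLinearEquiv.toLinearMap)).restrictScalars ℝ) fun h => ?_)
      · have h1 := EuclideanSpace.norm_sq_eq (b.repr u.1)
        have hu : ‖b.repr u.1 o‖ = 1 := hu
        rw [b.repr.norm_map, norm_eq_of_mem_sphere u, ← Finset.add_sum_erase _ _ (Finset.mem_univ o), hu] at h1
        have := (Finset.sum_eq_zero_iff_of_nonneg fun _ _ => sq_nonneg _).1 (by linarith :
          ∑ x ∈ Finset.univ.erase o, ‖b.repr u.1 x‖ ^ 2 = 0) o' (by simp [oo.symm])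
        simpa using this
      · have := h.ge (Submodule.mem_top (x := b.repr.symm (EuclideanSpace.single o' (1 : ℂ))))
        simp at this
    refine measure_mono_null (fun u hu => ?_) (measure_union_null A1 (measure_iUnion_null fun k : ℕ =>
      (?_ : μ {u : Sp n | b.repr u.1 o ∈ M ∧ ‖b.repr u.1 o‖ ^ 2 ≤ 1 - 1 / (k + 2)} = 0)))
    · rcases (z1 u).eq_or_lt with h | h
      · exact .inl h
      right
      obtain ⟨k, hk⟩ := exists_nat_one_div_lt (sub_pos.2 (show ‖b.repr u.1 o‖ ^ 2 < 1 by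
        nlinarith [norm_nonneg (b.repr u.1 o)]))
      have : (1 : ℝ) / (k + 2) < 1 / (k + 1) := by gcongr; norm_num
      exact mem_iUnion.2 ⟨k, hu, by linarith⟩
    · have k1 : (1 : ℝ) / (k + 2) < 1 := by
        rw [div_lt_one (by positivity)]; linarith [k.cast_nonneg (α := ℝ)]
      have k2 : (0 : ℝ) < 1 / (k + 2) := by positivity
      obtain ⟨K, K0, hK⟩ := dom zc z1 Hy (s := 1 - 1 / (k + 2)) (by linarith) (by linarith)
      exact le_antisymm ((hK M hm').trans_eq (by rw [S0, mul_zero])) zero_le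
  · intro s hs
    rcases lt_or_ge s 0 with h | h
    · refine ⟨0, fun B _ hB => ?_⟩
      rw [closedBall_eq_empty.2 h, subset_empty_iff] at hB
      simp [hB]
    obtain ⟨t, t0, t1, ht⟩ : ∃ t : ℝ, 0 < t ∧ t < 1 ∧ (s / ‖a‖) ^ 2 ≤ t := by
      have h1 : s / ‖a‖ < 1 := (div_lt_one a0).2 hs
      have h2 : 0 ≤ s / ‖a‖ := by positivity
      exact ⟨max (1 / 2) ((s / ‖a‖) ^ 2), by positivity, max_lt (by norm_num) (by nlinarith), le_max_right _ _⟩
    obtain ⟨K, K0, hK⟩ := dom zc z1 Hy t0 t1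
    have c0 : (volume : Measure (V n)).toSphere univ ≠ 0 := by
      have : Nonempty (Sp n) := ⟨⟨EuclideanSpace.single o 1, by simp⟩⟩
      exact (Measure.measure_univ_pos.2 (NeZero.ne (sg n))).ne'
    have c1 : (volume : Measure (V n)).toSphere univ ≠ ∞ := measure_ne_top _ _
    refine ⟨(K * sg n univ).toNNReal, fun B hB hs => ?_⟩
    have hm' : MeasurableSet ((fun w : ℂ => ‖a‖ * w) ⁻¹' B) := (by fun_prop : Measurable fun w : ℂ => ‖a‖ * w) hB
    rw [ENNReal.coe_toNNReal (ENNReal.mul_ne_top K0 c1), sc, sigma, Measure.smul_apply, smul_eq_mul, mul_assoc,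
      ← mul_assoc (sg n univ), ENNReal.mul_inv_cancel c0 c1, one_mul, ← invs b o hm']
    refine (measure_mono fun u hu => ?_).trans (hK _ hm')
    refine ⟨hu, ht.trans' ?_⟩
    have h3 := hs hu
    rw [mem_closedBall_zero_iff, norm_mul, Complex.norm_real, Real.norm_of_nonneg a0.le, mul_comm,
      ← le_div_iff₀ a0] at h3
    gcongr

end proof

/-- **Laws of coordinates** under the measures in `P_E`, and the answer to Q1. -/
theorem result (n : ℕ) (hn : 2 ≤ n) :
    (∀ μ ∈ PE n, LawsAC n μ ∧ LawsDominated n μ) ∧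
    ∀ P : Set (Measure (Sph n)), P.Nonempty → P ⊆ PE n →
      IsGreatest (nullDimC n P) (n - 1) ∧ IsGreatest (nullDimR n P) (2 * n - 1) := by
  refine ⟨fun μ hμ => ⟨fun a ha => (main hn hμ a ha).1, fun a s hs => ?_⟩, (Dim.result n hn).2⟩
  by_cases ha : a = 0
  · subst ha
    rw [norm_zero] at hs
    refine ⟨0, fun B _ hB => ?_⟩
    rw [closedBall_eq_empty.2 hs, subset_empty_iff] at hB
    simp [hB]
  exact (main hn hμ a ha).2 s hs

end Pool.Agent.Results.MP_ab521b_an.AbsolutelyContinuousLaws
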